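import Mathlib
import Pool.Agent.X318.PermCyc

/-!
# MP_e1bcf3_nt, Q1: `per[|j-k| + δ_{jk}]_{1≤j,k≤p} ≡ 1/2 (mod p)` for every odd prime `p`

More generally, with `e δ_{jk}` instead of `δ_{jk}` the permanent is `≡ e - 1/2 (mod p)`, for every integer `e`.
-/

set_option autoImplicit false

open Finset

namespace Pool.Agent.Results.MP_e1bcf3_nt.PermAbsDelta

/-- The permanent of a square integer matrix. -/
def per {n : ℕ} (M : Matrix (Fin n) (Fin n) ℤ) : ℤ := ∑ σ : Equiv.Perm (Fin n), ∏ j : Fin n, M j (σ j)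

/-- The matrix with entries `|j - k| + e δ_{jk}`, `1 ≤ j, k ≤ n` (the index `i : Fin n` stands for `i + 1`). -/
def A (n : ℕ) (e : ℤ) : Matrix (Fin n) (Fin n) ℤ :=
  fun j k => |(((j : ℕ) : ℤ) + 1) - (((k : ℕ) : ℤ) + 1)| + (if j = k then e else 0)

/-- `D_n`, the permanent of the matrix `|j - k| + δ_{jk}`. -/
def D (n : ℕ) : ℤ := per (A n 1)

/-- **Main result.** -/
theorem result (p : ℕ) (hp : p.Prime) (hodd : Odd p) :
    2 * D p ≡ 1 [ZMOD p] ∧ ∀ e : ℤ, 2 * per (A p e) ≡ 2 * e - 1 [ZMOD p] := by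
  have : Fact p.Prime := ⟨hp⟩
  have main : ∀ e : ℤ, 2 * per (A p e) ≡ 2 * e - 1 [ZMOD p] := by
    intro e
    have h := Pool.Agent.X318.PermCyc.main_fin hodd e
    have h1 : per (A p e) = ∑ σ : Equiv.Perm (Fin p), ∏ j : Fin p,
        (|((j : ℕ) : ℤ) - ((σ j : ℕ) : ℤ)| + (if j = σ j then e else 0)) := by
      unfold per A
      refine sum_congr rfl fun σ _ => prod_congr rfl fun j _ => ?_
      rw [add_sub_add_right_eq_sub]
    rw [h1]
    exact ((Int.modEq_iff_dvd).2 h).symm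
  exact ⟨main 1, main⟩

end Pool.Agent.Results.MP_e1bcf3_nt.PermAbsDelta
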